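import Mathlib

set_option autoImplicit false

namespace Pool.Agent.Ore

open Polynomial

abbrev R := Polynomial ℚ

/-- backward shift on coefficients -/
noncomputable def S : Module.End ℚ (Polynomial ℚ) where
  toFun p := p.divX
  map_add' p q := by ext n; simp [coeff_divX]
  map_smul' c p := by ext n; simp [coeff_divX]

lemma S_coeff (p : Polynomial ℚ) (n : ℕ) : (S p).coeff n = p.coeff (n + 1) := by
  show (p.divX).coeff n = _
  rw [coeff_divX]

lemma Spow_coeff (j : ℕ) (p : Polynomial ℚ) (n : ℕ) : ((S ^ j) p).coeff n = p.coeff (n + j) := by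
  induction j generalizing n with
  | zero => simp
  | succ j ih =>
    rw [pow_succ', Module.End.mul_apply, S_coeff, ih]
    congr 1; ring

noncomputable def rho : R →ₐ[ℚ] Module.End ℚ (Polynomial ℚ) := aeval S

lemma rho_coeff (p : R) (u : Polynomial ℚ) (n : ℕ) :
    (rho p u).coeff n = ∑ j ∈ Finset.range (p.natDegree + 1), p.coeff j * u.coeff (n + j) := by
  unfold rho
  rw [aeval_eq_sum_range, LinearMap.sum_apply, finset_sum_coeff]
  apply Finset.sum_congr rfl
  intro j _
  rw [LinearMap.smul_apply, coeff_smul, Spow_coeff, smul_eq_mul]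

lemma rho_X (u : Polynomial ℚ) : rho X u = S u := by
  unfold rho
  rw [aeval_X]

lemma rho_C (c : ℚ) (u : Polynomial ℚ) : rho (C c) u = c • u := by
  unfold rho
  rw [aeval_C]
  rfl

/-- cyclic submodules -/
lemma cyclic (n : ℕ) : ∀ u : Polynomial ℚ, (∀ m, n ≤ m → u.coeff m = 0) →
    (∀ k, n = k + 1 → u.coeff k ≠ 0) → ∀ w : Polynomial ℚ, (∀ m, n ≤ m → w.coeff m = 0) →
    ∃ p : R, rho p u = w := by
  induction n with
  | zero =>
    intro u _ _ w hw
    refine ⟨0, ?_⟩
    have : w = 0 := by ext m; simpa using hw m (Nat.zero_le m)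
    rw [this]; simp
  | succ n ih =>
    intro u hu hu2 w hw
    have hun := hu2 n rfl
    set c := w.coeff n / u.coeff n with hc
    have h1 : ∀ m, n ≤ m → (S u).coeff m = 0 := by
      intro m hm
      rw [S_coeff]
      exact hu _ (by omega)
    have h2 : ∀ k, n = k + 1 → (S u).coeff k ≠ 0 := by
      intro k hk
      rw [S_coeff, ← hk]
      exact hun
    have h3 : ∀ m, n ≤ m → (w - c • u).coeff m = 0 := by
      intro m hm
      rw [coeff_sub, coeff_smul, smul_eq_mul]
      rcases Nat.eq_or_lt_of_le hm with rfl | hlt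
      · rw [hc, div_mul_cancel₀ _ hun, sub_self]
      · rw [hw m hlt, hu m hlt]; simp
    obtain ⟨p, hp⟩ := ih (S u) h1 h2 (w - c • u) h3
    refine ⟨C c + p * X, ?_⟩
    rw [map_add, map_mul, LinearMap.add_apply, Module.End.mul_apply, rho_X, hp, rho_C]
    abel

/-- divisibility -/
lemma divisible (p : R) (hp : p ≠ 0) (w : Polynomial ℚ) : ∃ v, rho p v = w := by
  set m := p.natTrailingDegree with hm
  set n := w.natDegree with hn
  have hpm : p.coeff m ≠ 0 := by
    have := trailingCoeff_nonzero_iff_nonzero.mpr hp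
    exact this
  have hpj : ∀ j, j < m → p.coeff j = 0 := fun j hj => coeff_eq_zero_of_lt_natTrailingDegree hj
  set u := rho p (X ^ (m + n)) with hu
  have hcoef : ∀ k, u.coeff k = if k ≤ m + n then p.coeff (m + n - k) else 0 := by
    intro k
    rw [hu, rho_coeff]
    simp only [coeff_X_pow]
    split_ifs with hk
    · by_cases hle : m + n - k ≤ p.natDegree
      · rw [Finset.sum_eq_single (m + n - k)]
        · rw [if_pos (by omega), mul_one]
        · intro j _ hj
          rw [if_neg (by omega), mul_zero]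
        · intro h
          exact absurd (Finset.mem_range.mpr (by omega)) h
      · rw [coeff_eq_zero_of_natDegree_lt (by omega)]
        apply Finset.sum_eq_zero
        intro j hj
        rw [Finset.mem_range] at hj
        rw [if_neg (by omega), mul_zero]
    · apply Finset.sum_eq_zero
      intro j _
      rw [if_neg (by omega), mul_zero]
  obtain ⟨q, hq⟩ := cyclic (n + 1) u (by
      intro k hk
      rw [hcoef]
      split_ifs with h
      · exact hpj _ (by omega)
      · rfl) (by
      intro k hk
      have : k = n := by omega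
      subst this
      rw [hcoef, if_pos (by omega)]
      have : m + n - n = m := by omega
      rw [this]
      exact hpm) w (by
      intro k hk
      exact coeff_eq_zero_of_natDegree_lt (by omega))
  refine ⟨rho q (X ^ (m + n)), ?_⟩
  rw [← Module.End.mul_apply, ← map_mul, mul_comm p q, map_mul, Module.End.mul_apply, ← hu, hq]

lemma comparable (u w : Polynomial ℚ) : (∃ p : R, rho p u = w) ∨ (∃ p : R, rho p w = u) := by
  by_cases hu : u = 0
  · right; exact ⟨0, by simp [hu]⟩
  by_cases hw : w = 0
  · left; exact ⟨0, by simp [hw]⟩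
  rcases le_total w.natDegree u.natDegree with h | h
  · left
    apply cyclic (u.natDegree + 1) u
    · intro m hm; exact coeff_eq_zero_of_natDegree_lt (by omega)
    · intro k hk
      have : k = u.natDegree := by omega
      subst this
      exact leadingCoeff_ne_zero.mpr hu
    · intro m hm; exact coeff_eq_zero_of_natDegree_lt (by omega)
  · right
    apply cyclic (w.natDegree + 1) w
    · intro m hm; exact coeff_eq_zero_of_natDegree_lt (by omega)
    · intro k hk
      have : k = w.natDegree := by omega
      subst this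
      exact leadingCoeff_ne_zero.mpr hw
    · intro m hm; exact coeff_eq_zero_of_natDegree_lt (by omega)

/-- the substitution `x ↦ x + 1` -/
noncomputable def sig : R →+* R := Polynomial.compRingHom (X + 1)

lemma sig_apply (p : R) : sig p = p.comp (X + 1) := rfl

lemma sig_ne {p : R} (hp : p ≠ 0) : sig p ≠ 0 := by
  rw [sig_apply]
  intro h
  apply hp
  have h2 : (p.comp (X + 1)).comp (X - 1) = 0 := by rw [h]; simp
  rw [comp_assoc] at h2
  simpa using h2

/-- the bimodule -/
def B : Type := Polynomial ℚ

noncomputable instance : AddCommGroup B := inferInstanceAs (AddCommGroup (Polynomial ℚ))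

noncomputable def act (p : R) (u : B) : B := rho p u

lemma act_add (p : R) (u v : B) : act p (u + v) = act p u + act p v := (rho p).map_add u v
lemma act_zero (p : R) : act p 0 = 0 := (rho p).map_zero
lemma add_act (p q : R) (u : B) : act (p + q) u = act p u + act q u := by
  unfold act; rw [map_add]; rfl
lemma zero_act (u : B) : act 0 u = 0 := by
  unfold act; rw [map_zero]; rfl
lemma one_act (u : B) : act 1 u = u := by
  unfold act; rw [map_one]; rfl
lemma mul_act (p q : R) (u : B) : act (p * q) u = act p (act q u) := by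
  unfold act; rw [map_mul]; rfl

noncomputable instance : Module R B where
  smul r b := act (sig r) b
  one_smul b := by show act (sig 1) b = b; rw [map_one, one_act]
  mul_smul r s b := by show act (sig (r * s)) b = act (sig r) (act (sig s) b); rw [map_mul, mul_act]
  smul_zero r := act_zero _
  smul_add r u v := act_add _ u v
  add_smul r s u := by show act (sig (r + s)) u = act (sig r) u + act (sig s) u; rw [map_add, add_act]
  zero_smul u := by show act (sig 0) u = 0; rw [map_zero, zero_act]

noncomputable instance : Module Rᵐᵒᵖ B where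
  smul r b := act r.unop b
  one_smul b := one_act b
  mul_smul r s b := by
    show act (r * s).unop b = act r.unop (act s.unop b)
    rw [MulOpposite.unop_mul, mul_comm, mul_act]
  smul_zero r := act_zero _
  smul_add r u v := act_add _ u v
  add_smul r s u := add_act _ _ _
  zero_smul u := zero_act u

instance : SMulCommClass R Rᵐᵒᵖ B where
  smul_comm r s b := by
    show act (sig r) (act s.unop b) = act s.unop (act (sig r) b)
    rw [← mul_act, ← mul_act, mul_comm]

abbrev A := TrivSqZeroExt R B

lemma mul_fst (x y : A) : (x * y).fst = x.fst * y.fst := rfl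
lemma mul_snd (x y : A) : (x * y).snd = act (sig x.fst) y.snd + act y.fst x.snd := rfl

lemma pair_ext {x y : A} (h1 : x.fst = y.fst) (h2 : x.snd = y.snd) : x = y :=
  TrivSqZeroExt.ext h1 h2

def mk (r : R) (b : B) : A := (r, b)
@[simp] lemma mk_fst (r : R) (b : B) : (mk r b).fst = r := rfl
@[simp] lemma mk_snd (r : R) (b : B) : (mk r b).snd = b := rfl

lemma dist_key (b c : A) : ∃ s t : A, s + t = 1 ∧ (∃ x, b * s = c * x) ∧ ∃ y, c * t = b * y := by
  by_cases hb : b.fst = 0
  · by_cases hc : c.fst = 0
    · rcases comparable b.snd c.snd with ⟨p, hp⟩ | ⟨p, hp⟩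
      · refine ⟨0, 1, by simp, ⟨0, by simp⟩, mk p 0, ?_⟩
        rw [mul_one]
        apply pair_ext
        · rw [mul_fst, hb, hc, zero_mul]
        · rw [mul_snd, mk_snd, act_zero, zero_add]
          exact hp.symm
      · refine ⟨1, 0, by simp, ⟨mk p 0, ?_⟩, ⟨0, by simp⟩⟩
        rw [mul_one]
        apply pair_ext
        · rw [mul_fst, hb, hc, zero_mul]
        · rw [mul_snd, mk_snd, act_zero, zero_add]
          exact hp.symm
    · obtain ⟨v, hv⟩ := divisible (sig c.fst) (sig_ne hc) b.snd
      refine ⟨1, 0, by simp, ⟨mk 0 v, ?_⟩, ⟨0, by simp⟩⟩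
      rw [mul_one]
      apply pair_ext
      · rw [mul_fst, hb, mk_fst, mul_zero]
      · rw [mul_snd, mk_snd, mk_fst, zero_act, add_zero]
        exact hv.symm
  · by_cases hc : c.fst = 0
    · obtain ⟨v, hv⟩ := divisible (sig b.fst) (sig_ne hb) c.snd
      refine ⟨0, 1, by simp, ⟨0, by simp⟩, mk 0 v, ?_⟩
      rw [mul_one]
      apply pair_ext
      · rw [mul_fst, hc, mk_fst, mul_zero]
      · rw [mul_snd, mk_snd, mk_fst, zero_act, add_zero]
        exact hv.symm
    · -- both nonzero
      obtain ⟨d, α, β, p, q, hα, hβ, hpq⟩ : ∃ d α β p q : R, b.fst = d * α ∧ c.fst = d * β ∧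
          α * p + β * q = 1 := by
        have hg : EuclideanDomain.gcd b.fst c.fst ≠ 0 := by
          intro h
          exact hb (EuclideanDomain.gcd_eq_zero_iff.mp h).1
        obtain ⟨α, hα⟩ := EuclideanDomain.gcd_dvd_left b.fst c.fst
        obtain ⟨β, hβ⟩ := EuclideanDomain.gcd_dvd_right b.fst c.fst
        refine ⟨EuclideanDomain.gcd b.fst c.fst, α, β, EuclideanDomain.gcdA b.fst c.fst,
          EuclideanDomain.gcdB b.fst c.fst, hα, hβ, ?_⟩
        have h := EuclideanDomain.gcd_eq_gcd_ab b.fst c.fst
        apply mul_left_cancel₀ hg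
        calc EuclideanDomain.gcd b.fst c.fst * (α * EuclideanDomain.gcdA b.fst c.fst +
            β * EuclideanDomain.gcdB b.fst c.fst) =
            (EuclideanDomain.gcd b.fst c.fst * α) * EuclideanDomain.gcdA b.fst c.fst +
            (EuclideanDomain.gcd b.fst c.fst * β) * EuclideanDomain.gcdB b.fst c.fst := by ring
          _ = b.fst * EuclideanDomain.gcdA b.fst c.fst +
            c.fst * EuclideanDomain.gcdB b.fst c.fst := by rw [← hα, ← hβ]
          _ = EuclideanDomain.gcd b.fst c.fst := h.symm
          _ = _ := (mul_one _).symm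
      obtain ⟨v, hv⟩ := divisible (sig c.fst) (sig_ne hc) (act (β * q) b.snd - act (α * q) c.snd : B)
      obtain ⟨w, hw⟩ := divisible (sig b.fst) (sig_ne hb) (act (α * p) c.snd - act (β * p) b.snd : B)
      have hv' : act (sig c.fst) v = act (β * q) b.snd - act (α * q) c.snd := hv
      have hw' : act (sig b.fst) w = act (α * p) c.snd - act (β * p) b.snd := hw
      refine ⟨mk (β * q) 0, mk (α * p) 0, ?_, ⟨mk (α * q) v, ?_⟩, ⟨mk (β * p) w, ?_⟩⟩
      · apply pair_ext
        · show β * q + α * p = 1
          rw [add_comm, hpq]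
        · show (0 : B) + 0 = 0
          rw [add_zero]
      · apply pair_ext
        · rw [mul_fst, mul_fst, mk_fst, mk_fst, hα, hβ]; ring
        · rw [mul_snd, mul_snd, mk_snd, mk_fst, mk_snd, mk_fst, act_zero, zero_add, hv']
          abel
      · apply pair_ext
        · rw [mul_fst, mul_fst, mk_fst, mk_fst, hα, hβ]; ring
        · rw [mul_snd, mul_snd, mk_snd, mk_fst, mk_snd, mk_fst, act_zero, zero_add, hw']
          abel

lemma right_mem (I : Submodule Aᵐᵒᵖ A) {a : A} (ha : a ∈ I) (s : A) : a * s ∈ I := by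
  have := I.smul_mem (MulOpposite.op s) ha
  simpa using this

lemma distrib (I J K : Submodule Aᵐᵒᵖ A) : I ⊓ (J ⊔ K) = I ⊓ J ⊔ I ⊓ K := by
  apply le_antisymm
  · rintro a ⟨haI, haJK⟩
    obtain ⟨b, hb, c, hc, rfl⟩ := Submodule.mem_sup.mp haJK
    obtain ⟨s, t, hst, ⟨x, hx⟩, ⟨y, hy⟩⟩ := dist_key b c
    have e : b + c = (b + c) * t + (b + c) * s := by
      rw [← mul_add, add_comm t s, hst, mul_one]
    rw [e]
    apply Submodule.add_mem_sup
    · refine ⟨right_mem I haI t, ?_⟩
      show (b + c) * t ∈ J
      rw [add_mul, hy]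
      exact J.add_mem (right_mem J hb t) (right_mem J hb y)
    · refine ⟨right_mem I haI s, ?_⟩
      show (b + c) * s ∈ K
      rw [add_mul, hx]
      exact K.add_mem (right_mem K hc x) (right_mem K hc s)
  · exact sup_le (inf_le_inf_left I le_sup_left) (inf_le_inf_left I le_sup_right)

/-- the maximal right ideal -/
def M : Submodule Aᵐᵒᵖ A where
  carrier := {a | a.fst.coeff 0 = 0}
  add_mem' := by
    intro a b ha hb
    show (a.fst + b.fst).coeff 0 = 0
    rw [coeff_add]
    have h1 : a.fst.coeff 0 = 0 := ha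
    have h2 : b.fst.coeff 0 = 0 := hb
    rw [h1, h2, add_zero]
  zero_mem' := by
    show (0 : R).coeff 0 = 0
    simp
  smul_mem' := by
    intro c a ha
    show (a * c.unop).fst.coeff 0 = 0
    have h1 : a.fst.coeff 0 = 0 := ha
    rw [mul_fst, mul_coeff_zero, h1, zero_mul]

lemma mem_M (a : A) : a ∈ M ↔ a.fst.coeff 0 = 0 := Iff.rfl

lemma M_coatom : IsCoatom M := by
  constructor
  · intro h
    have : (1 : A) ∈ M := by rw [h]; trivial
    rw [mem_M] at this
    have h2 : (1 : A).fst = 1 := rfl
    rw [h2] at this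
    simp at this
  · intro N hN
    obtain ⟨a, haN, haM⟩ := SetLike.exists_of_lt hN
    rw [mem_M] at haM
    have h1 : a * mk (C (a.fst.coeff 0)⁻¹) 0 ∈ N := right_mem N haN _
    have h2 : 1 - a * mk (C (a.fst.coeff 0)⁻¹) 0 ∈ M := by
      rw [mem_M]
      show (1 - a.fst * C (a.fst.coeff 0)⁻¹).coeff 0 = 0
      rw [coeff_sub, coeff_mul_C, mul_inv_cancel₀ haM]
      simp
    have h3 : (1 : A) ∈ N := by
      have := N.add_mem (hN.le h2) h1
      simpa using this
    rw [eq_top_iff]
    intro x _
    have := right_mem N h3 x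
    rwa [one_mul] at this

theorem main :
    ¬ (∀ (A : Type) [Ring A],
      (∀ I J K : Submodule Aᵐᵒᵖ A, I ⊓ (J ⊔ K) = I ⊓ J ⊔ I ⊓ K) →
      ∀ M : Submodule Aᵐᵒᵖ A, IsCoatom M →
        ∃ (Q : Type) (_ : Ring Q) (f : A →+* Q),
          (∀ t : A, t ∉ M → IsUnit (f t)) ∧
          (∀ q : Q, ∃ a t : A, t ∉ M ∧ q * f t = f a) ∧
          (∀ a : A, f a = 0 ↔ ∃ t : A, t ∉ M ∧ a * t = 0)) := by
  intro H
  obtain ⟨Q, _, f, h1, -, h3⟩ := H A distrib M M_coatom
  let b : B := (1 : Polynomial ℚ)
  have ht : mk (X - 1) 0 ∉ M := by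
    rw [mem_M, mk_fst]
    simp
  have hzero : mk (X - 1) 0 * mk 0 b = 0 := by
    apply pair_ext
    · rw [mul_fst, mk_fst, mk_fst, mul_zero]; rfl
    · rw [mul_snd, mk_snd, mk_fst, mk_fst, mk_snd, act_zero, add_zero]
      have hs : sig (X - 1) = X := by
        rw [sig_apply]; simp
      rw [hs]
      show rho X (1 : Polynomial ℚ) = 0
      rw [rho_X]
      ext n
      rw [S_coeff]
      simp [coeff_one]
  have hf : f (mk 0 b) = 0 := by
    have h4 : f (mk (X - 1) 0) * f (mk 0 b) = 0 := by rw [← map_mul, hzero, map_zero]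
    exact (h1 _ ht).mul_right_eq_zero.mp h4
  obtain ⟨s, hs, hs2⟩ := (h3 _).mp hf
  apply hs
  rw [mem_M]
  have h5 : act s.fst b = 0 := by
    have := congrArg TrivSqZeroExt.snd hs2
    rw [mul_snd, mk_fst, mk_snd, map_zero, zero_act, zero_add] at this
    exact this
  have h6 : (rho s.fst (1 : Polynomial ℚ)).coeff 0 = s.fst.coeff 0 := by
    rw [rho_coeff, Finset.sum_eq_single 0]
    · simp
    · intro j _ hj
      rw [zero_add, coeff_one, if_neg hj, mul_zero]
    · intro h
      exact absurd (Finset.mem_range.mpr (Nat.succ_pos _)) h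
  rw [← h6]
  have h7 : rho s.fst (1 : Polynomial ℚ) = 0 := h5
  rw [h7]
  simp

end Pool.Agent.Ore
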